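import Pool.Graph.R_seed8.Results.MP_ca5fbf_co.ColumnFormulas

/-!
# MP_ca5fbf_co: `B(n) - A(n)` is infinitely often more than any fraction below `1/4` of `r₃(⌈n/3⌉)`

If `B(n) - A(n) ≤ η r₃(⌈n/3⌉)` held for all large `n`, where `η < 1/4`, then
`(1 - η) r₃(m) ≤ r₃(a) + r₃(b)` for some `a + b ≤ (3m+5)/4`, for all large `m`, and iterating this
gives `r₃(m) ≤ C m^s` for some `s < 1`, which contradicts Behrend's lower bound.
-/

set_option autoImplicit false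

open Filter Topology

namespace Pool.Agent.Results.MP_ca5fbf_co.LargeGap

open Pool.Agent.Results.MP_ca5fbf_co.ColumnFormulas

/-- The difference of the two formulas at `3m`. -/
theorem split (m : ℕ) : ∃ a b : ℕ, 4 * (a + b) ≤ 3 * m + 5 ∧
    B (3 * m) - A (3 * m) = (r3 m : ℤ) - ((r3 a + r3 b : ℕ) : ℤ) := by
  unfold A B
  have h3 : ⌈((3 * m : ℕ) : ℚ) / 3⌉₊ = m := by
    have : ((3 * m : ℕ) : ℚ) / 3 = (m : ℚ) := by push_cast; ring
    rw [this, Nat.ceil_natCast]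
  rw [h3]
  set T : Set ℕ := {x : ℕ | ∃ k l : ℕ, k + l = ⌈((3 * m : ℕ) : ℚ) / 2⌉₊ ∧
    x = r3 ⌈(k : ℚ) / 2⌉₊ + r3 ⌈(l : ℚ) / 2⌉₊} with hT
  have hne : T.Nonempty := ⟨_, 0, ⌈((3 * m : ℕ) : ℚ) / 2⌉₊, by simp, rfl⟩
  have hbdd : BddAbove T := by
    refine ⟨2 * ⌈((3 * m : ℕ) : ℚ) / 2⌉₊, ?_⟩
    rintro x ⟨k, l, hkl, rfl⟩
    have h1 : ⌈(k : ℚ) / 2⌉₊ ≤ k := by
      apply Nat.ceil_le.2
      have : (0 : ℚ) ≤ k := Nat.cast_nonneg k
      linarith
    have h2 : ⌈(l : ℚ) / 2⌉₊ ≤ l := by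
      apply Nat.ceil_le.2
      have : (0 : ℚ) ≤ l := Nat.cast_nonneg l
      linarith
    have h4 := r3_le ⌈(k : ℚ) / 2⌉₊
    have h5 := r3_le ⌈(l : ℚ) / 2⌉₊
    omega
  obtain ⟨k, l, hkl, hx⟩ := Nat.sSup_mem hne hbdd
  refine ⟨⌈(k : ℚ) / 2⌉₊, ⌈(l : ℚ) / 2⌉₊, ?_, ?_⟩
  · have h1 : (⌈(k : ℚ) / 2⌉₊ : ℚ) < (k : ℚ) / 2 + 1 := Nat.ceil_lt_add_one (by positivity)
    have h2 : (⌈(l : ℚ) / 2⌉₊ : ℚ) < (l : ℚ) / 2 + 1 := Nat.ceil_lt_add_one (by positivity)
    have h4 : (⌈((3 * m : ℕ) : ℚ) / 2⌉₊ : ℚ) < ((3 * m : ℕ) : ℚ) / 2 + 1 :=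
      Nat.ceil_lt_add_one (by positivity)
    have h1' : 2 * ⌈(k : ℚ) / 2⌉₊ < k + 2 := by
      have : (2 : ℚ) * ⌈(k : ℚ) / 2⌉₊ < k + 2 := by linarith
      exact_mod_cast this
    have h2' : 2 * ⌈(l : ℚ) / 2⌉₊ < l + 2 := by
      have : (2 : ℚ) * ⌈(l : ℚ) / 2⌉₊ < l + 2 := by linarith
      exact_mod_cast this
    have h4' : 2 * ⌈((3 * m : ℕ) : ℚ) / 2⌉₊ < 3 * m + 2 := by
      have : (2 : ℚ) * ⌈((3 * m : ℕ) : ℚ) / 2⌉₊ < ((3 * m : ℕ) : ℚ) + 2 := by linarith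
      exact_mod_cast this
    omega
  · rw [← hx]
    ring

/-- Iteration of the splitting inequality. -/
theorem power_bound {s θ : ℝ} (hs0 : 0 < s) (hs1 : s < 1) (hθ : 0 < θ) (M : ℕ)
    (hM : ∀ m, M ≤ m → ∀ a b : ℕ, 4 * (a + b) ≤ 3 * m + 5 →
      a < m ∧ b < m ∧ (a : ℝ) ^ s + (b : ℝ) ^ s ≤ θ * (m : ℝ) ^ s)
    (h : ∀ m, M ≤ m → ∃ a b : ℕ, 4 * (a + b) ≤ 3 * m + 5 ∧ θ * r3 m ≤ r3 a + r3 b) (m : ℕ) :
    (r3 m : ℝ) ≤ (M : ℝ) * (m : ℝ) ^ s := by
  induction m using Nat.strong_induction_on with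
  | _ m ih =>
    rcases Nat.lt_or_ge m M with hm | hm
    · rcases Nat.eq_zero_or_pos m with rfl | hpos
      · have : r3 0 = 0 := Nat.le_zero.1 (r3_le 0)
        rw [this, Nat.cast_zero, Real.zero_rpow hs0.ne', mul_zero]
      · have h1 : (1 : ℝ) ≤ (m : ℝ) ^ s := by
          apply Real.one_le_rpow
          · exact_mod_cast hpos
          · exact hs0.le
        have h2 : (r3 m : ℝ) ≤ M := by exact_mod_cast (r3_le m).trans hm.le
        have h3 : (0 : ℝ) ≤ M := by positivity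
        nlinarith
    · obtain ⟨a, b, hab, hr⟩ := h m hm
      obtain ⟨ha, hb, hc⟩ := hM m hm a b hab
      have iha := ih a ha
      have ihb := ih b hb
      have hMpos : (0 : ℝ) ≤ M := by positivity
      have h1 : θ * r3 m ≤ θ * (M * (m : ℝ) ^ s) := by
        calc θ * (r3 m : ℝ) ≤ r3 a + r3 b := hr
          _ ≤ M * (a : ℝ) ^ s + M * (b : ℝ) ^ s := by linarith
          _ = M * ((a : ℝ) ^ s + (b : ℝ) ^ s) := by ring
          _ ≤ M * (θ * (m : ℝ) ^ s) := mul_le_mul_of_nonneg_left hc hMpos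
          _ = θ * (M * (m : ℝ) ^ s) := by ring
      exact le_of_mul_le_mul_left h1 hθ

/-- Behrend's bound: `r₃(m)` is eventually larger than `C m^s` for every `s < 1`. -/
theorem eventually_large {s : ℝ} (hs1 : s < 1) (C : ℝ) :
    ∀ᶠ m : ℕ in atTop, C * (m : ℝ) ^ s < r3 m := by
  have hlog : Tendsto (fun m : ℕ => Real.log (m : ℝ)) atTop atTop :=
    Real.tendsto_log_atTop.comp tendsto_natCast_atTop_atTop
  have hsq : Tendsto (fun m : ℕ => √(Real.log (m : ℝ))) atTop atTop :=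
    Real.tendsto_sqrt_atTop.comp hlog
  set C' : ℝ := max C 1 with hC'
  have hC1 : 0 < C' := lt_of_lt_of_le one_pos (le_max_right _ _)
  filter_upwards [hsq.eventually_gt_atTop ((4 + |Real.log C'|) / (1 - s) + 1),
    eventually_gt_atTop 0] with m hm hm0
  have hm0' : (0 : ℝ) < m := by exact_mod_cast hm0
  have h1 : (m : ℝ) * Real.exp (-4 * √(Real.log m)) ≤ rothNumberNat m := Behrend.roth_lower_bound
  have h2 : (rothNumberNat m : ℝ) ≤ r3 m := by exact_mod_cast roth_le_r3 m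
  refine lt_of_lt_of_le ?_ (h1.trans h2)
  have h3 : C * (m : ℝ) ^ s ≤ C' * (m : ℝ) ^ s :=
    mul_le_mul_of_nonneg_right (le_max_left _ _) (Real.rpow_nonneg hm0'.le _)
  refine lt_of_le_of_lt h3 ?_
  have hL : 0 < 1 - s := by linarith
  set x : ℝ := √(Real.log m) with hx
  have hx1 : 1 < x := by
    refine lt_of_le_of_lt ?_ hm
    have : 0 ≤ (4 + |Real.log C'|) / (1 - s) := by positivity
    linarith
  have hlog0 : 0 ≤ Real.log m := by
    by_contra hcon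
    have : x = 0 := Real.sqrt_eq_zero_of_nonpos (not_le.1 hcon).le
    linarith
  have hxx : x * x = Real.log m := Real.mul_self_sqrt hlog0
  rw [← Real.log_lt_log_iff (by positivity) (by positivity), Real.log_mul hC1.ne'
    (Real.rpow_pos_of_pos hm0' _).ne', Real.log_rpow hm0', Real.log_mul hm0'.ne'
    (Real.exp_pos _).ne', Real.log_exp, ← hxx]
  have h4 : (4 + |Real.log C'|) < (1 - s) * x := by
    have h5 : (4 + |Real.log C'|) / (1 - s) < x := by linarith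
    rwa [div_lt_iff₀ hL, mul_comm] at h5
  have h6 : (4 + |Real.log C'|) * x < (1 - s) * x * x := mul_lt_mul_of_pos_right h4 (by linarith)
  have h7 : Real.log C' ≤ |Real.log C'| * x := by
    calc Real.log C' ≤ |Real.log C'| := le_abs_self _
      _ = |Real.log C'| * 1 := (mul_one _).symm
      _ ≤ |Real.log C'| * x := mul_le_mul_of_nonneg_left hx1.le (abs_nonneg _)
  nlinarith

/-- **The gap between the two formulas.** (1) For every `η < 1/4` there are infinitely many `n` with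
`B(n) - A(n) > η r₃(⌈n/3⌉)`. (2) For every `s < 1` and every `C` there are infinitely many `n`
with `B(n) - A(n) > C n ^ s`; in particular `A(n) < B(n)` infinitely often and
`B(n) - A(n)` is unbounded. -/
theorem result :
    (∀ η : ℝ, η < 1 / 4 → ∀ N : ℕ, ∃ n : ℕ, N ≤ n ∧ 0 < n ∧
      η * (r3 ⌈(n : ℚ) / 3⌉₊ : ℝ) < ((B n - A n : ℤ) : ℝ)) ∧
    (∀ s : ℝ, s < 1 → ∀ C : ℝ, ∀ N : ℕ, ∃ n : ℕ, N ≤ n ∧ 0 < n ∧
      C * (n : ℝ) ^ s < ((B n - A n : ℤ) : ℝ)) := by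
  have main : ∀ η : ℝ, η < 1 / 4 → ∀ N : ℕ, ∃ m : ℕ, N ≤ m ∧ 0 < m ∧
      η * (r3 m : ℝ) < ((B (3 * m) - A (3 * m) : ℤ) : ℝ) := by
    intro η hη N
    by_contra hcon
    push Not at hcon
    obtain ⟨q, hq1, hq2⟩ : ∃ q : ℝ, 3 / 4 < q ∧ q < 1 - η := exists_between (by linarith)
    have hq0 : 0 < q := by linarith
    -- choose the exponent
    obtain ⟨s, hs0, hs1, hs⟩ : ∃ s : ℝ, 0 < s ∧ s < 1 ∧ (2 : ℝ) ^ (1 - s) * q ^ s < 1 - η := by
      have hc : ContinuousAt (fun s : ℝ => (2 : ℝ) ^ (1 - s) * q ^ s) 1 := by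
        apply ContinuousAt.mul
        · exact (Real.continuousAt_const_rpow (by norm_num)).comp (by fun_prop)
        · exact Real.continuousAt_const_rpow hq0.ne'
      have hv : (2 : ℝ) ^ (1 - (1 : ℝ)) * q ^ (1 : ℝ) < 1 - η := by
        rw [sub_self, Real.rpow_zero, one_mul, Real.rpow_one]
        exact hq2
      have h1 := hc.eventually_lt continuousAt_const hv
      have h2 : ∀ᶠ s : ℝ in 𝓝[<] 1, (2 : ℝ) ^ (1 - s) * q ^ s < 1 - η :=
        nhdsWithin_le_nhds h1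
      have h3 : ∀ᶠ s : ℝ in 𝓝[<] 1, 0 < s :=
        nhdsWithin_le_nhds (lt_mem_nhds (by norm_num))
      obtain ⟨s, hs⟩ := (h2.and (h3.and self_mem_nhdsWithin)).exists
      exact ⟨s, hs.2.1, hs.2.2, hs.1⟩
    obtain ⟨M₀, hM₀⟩ := exists_nat_gt (5 / (4 * q - 3))
    set M : ℕ := max (max M₀ (N + 1)) 100 with hMdef
    have hb := power_bound hs0 hs1 (θ := 1 - η) (by linarith) M ?_ ?_
    · obtain ⟨m, hm⟩ := (eventually_large hs1 (M : ℝ)).exists
      exact absurd (hb m) (not_le.2 hm)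
    · intro m hm a b hab
      have hm100 : 100 ≤ m := le_trans (le_max_right _ _) hm
      have hmM₀ : M₀ ≤ m := le_trans ((le_max_left _ _).trans (le_max_left _ _)) hm
      refine ⟨by omega, by omega, ?_⟩
      have hm0 : (0 : ℝ) < m := by
        have : 0 < m := by omega
        exact_mod_cast this
      have hconc : (a : ℝ) ^ s + (b : ℝ) ^ s ≤ 2 * (((a : ℝ) + b) / 2) ^ s := by
        have hc := (Real.concaveOn_rpow (p := s) hs0.le hs1.le).2
          (Set.mem_Ici.2 (Nat.cast_nonneg a : (0 : ℝ) ≤ a))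
          (Set.mem_Ici.2 (Nat.cast_nonneg b : (0 : ℝ) ≤ b))
          (by norm_num : (0 : ℝ) ≤ 1 / 2) (by norm_num : (0 : ℝ) ≤ 1 / 2) (by norm_num)
        simp only [smul_eq_mul] at hc
        have he : (1 / 2 : ℝ) * a + 1 / 2 * b = ((a : ℝ) + b) / 2 := by ring
        rw [he] at hc
        linarith
      have hle : ((a : ℝ) + b) / 2 ≤ q * m / 2 := by
        have h1 : (4 : ℝ) * (a + b) ≤ 3 * m + 5 := by exact_mod_cast hab
        have h2 : 5 / (4 * q - 3) < (m : ℝ) := lt_of_lt_of_le hM₀ (by exact_mod_cast hmM₀)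
        rw [div_lt_iff₀ (by linarith)] at h2
        nlinarith
      have hpow : (((a : ℝ) + b) / 2) ^ s ≤ (q * m / 2) ^ s :=
        Real.rpow_le_rpow (by positivity) hle hs0.le
      have he2 : 2 * (q * m / 2) ^ s = (2 : ℝ) ^ (1 - s) * q ^ s * (m : ℝ) ^ s := by
        rw [Real.div_rpow (by positivity) (by norm_num), Real.mul_rpow hq0.le hm0.le,
          Real.rpow_sub (by norm_num), Real.rpow_one]
        ring
      calc (a : ℝ) ^ s + (b : ℝ) ^ s ≤ 2 * (q * m / 2) ^ s := by linarith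
        _ = (2 : ℝ) ^ (1 - s) * q ^ s * (m : ℝ) ^ s := he2
        _ ≤ (1 - η) * (m : ℝ) ^ s :=
          mul_le_mul_of_nonneg_right hs.le (Real.rpow_nonneg hm0.le _)
    · intro m hm
      have hmN : N + 1 ≤ m := le_trans ((le_max_right _ _).trans (le_max_left _ _)) hm
      obtain ⟨a, b, hab, he⟩ := split m
      refine ⟨a, b, hab, ?_⟩
      have h1 := hcon m (by omega) (by omega)
      rw [he] at h1
      push_cast at h1
      linarith
  have h3m : ∀ m : ℕ, ⌈((3 * m : ℕ) : ℚ) / 3⌉₊ = m := by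
    intro m
    have : ((3 * m : ℕ) : ℚ) / 3 = (m : ℚ) := by push_cast; ring
    rw [this, Nat.ceil_natCast]
  refine ⟨fun η hη N => ?_, fun s hs C N => ?_⟩
  · obtain ⟨m, hm, hm0, h⟩ := main η hη N
    refine ⟨3 * m, by omega, by omega, ?_⟩
    rw [h3m]
    exact h
  · obtain ⟨M, hM⟩ := eventually_atTop.1 (eventually_large hs (8 * |C| * (3 : ℝ) ^ s))
    obtain ⟨m, hm, hm0, h⟩ := main (1 / 8) (by norm_num) (max M N)
    refine ⟨3 * m, by omega, by omega, lt_of_le_of_lt ?_ h⟩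
    have h1 := hM m ((le_max_left _ _).trans hm)
    have hm0' : (0 : ℝ) ≤ m := Nat.cast_nonneg m
    have h2 : (((3 * m : ℕ) : ℝ)) ^ s = (3 : ℝ) ^ s * (m : ℝ) ^ s := by
      push_cast
      rw [Real.mul_rpow (by norm_num) hm0']
    rw [h2]
    have h3 : C * ((3 : ℝ) ^ s * (m : ℝ) ^ s) ≤ |C| * ((3 : ℝ) ^ s * (m : ℝ) ^ s) :=
      mul_le_mul_of_nonneg_right (le_abs_self C) (by positivity)
    linarith

end Pool.Agent.Results.MP_ca5fbf_co.LargeGap
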